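import Mathlib

/-!
# T9, module OI2: skew matrices on spaces of odd dimension
-/

set_option autoImplicit false

open Matrix

namespace MT
namespace OI

variable {L : Type} [Field L] {n : ℕ}

theorem skew_dot {ψ T : Matrix (Fin n) (Fin n) L} (hT : Tᵀ * ψ + ψ * T = 0)
    (x y : Fin n → L) : (T *ᵥ x) ⬝ᵥ (ψ *ᵥ y) = -(x ⬝ᵥ (ψ *ᵥ (T *ᵥ y))) := by
  have h1 : Tᵀ * ψ = -(ψ * T) := eq_neg_of_add_eq_zero_left hT
  have h2 : (T *ᵥ x) ⬝ᵥ (ψ *ᵥ y) = x ⬝ᵥ (Tᵀ *ᵥ (ψ *ᵥ y)) := by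
    rw [Matrix.dotProduct_mulVec x Tᵀ, Matrix.vecMul_transpose]
  rw [h2, Matrix.mulVec_mulVec, h1, Matrix.neg_mulVec, dotProduct_neg, Matrix.mulVec_mulVec]

theorem sa_dot {ψ Z : Matrix (Fin n) (Fin n) L} (hZ : Zᵀ * ψ = ψ * Z)
    (x y : Fin n → L) : (Z *ᵥ x) ⬝ᵥ (ψ *ᵥ y) = x ⬝ᵥ (ψ *ᵥ (Z *ᵥ y)) := by
  have h2 : (Z *ᵥ x) ⬝ᵥ (ψ *ᵥ y) = x ⬝ᵥ (Zᵀ *ᵥ (ψ *ᵥ y)) := by
    rw [Matrix.dotProduct_mulVec x Zᵀ, Matrix.vecMul_transpose]
  rw [h2, Matrix.mulVec_mulVec, hZ, Matrix.mulVec_mulVec]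

theorem zero_of_dot {ψ : Matrix (Fin n) (Fin n) L} (hψ : ψ.det ≠ 0) {u : Fin n → L}
    (h : ∀ x : Fin n → L, x ⬝ᵥ (ψ *ᵥ u) = 0) : u = 0 := by
  have h1 : ψ *ᵥ u = 0 := by
    funext i
    have := h (Pi.single i 1)
    rwa [single_one_dotProduct] at this
  by_contra hu
  exact hψ (Matrix.exists_mulVec_eq_zero_iff.mp ⟨u, hu, h1⟩)

/-- a skew matrix is singular on a non-degenerate subspace of odd dimension -/
theorem odd_kernel [CharZero L] {ψ T : Matrix (Fin n) (Fin n) L} (hT : Tᵀ * ψ + ψ * T = 0)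
    (U : Submodule L (Fin n → L)) (hTU : ∀ u ∈ U, T *ᵥ u ∈ U)
    (hnd : ∀ u ∈ U, (∀ x ∈ U, x ⬝ᵥ (ψ *ᵥ u) = 0) → u = 0)
    (hodd : Odd (Module.finrank L U)) : ∃ v ∈ U, v ≠ 0 ∧ T *ᵥ v = 0 := by
  by_contra hcon
  push Not at hcon
  set k := Module.finrank L U with hk
  let b : Module.Basis (Fin k) L U := Module.finBasis L U
  let c : (Fin k → L) → (Fin n → L) := fun v => ((∑ i, v i • b i : U) : Fin n → L)
  have hcU : ∀ v, c v ∈ U := fun v => (∑ i, v i • b i : U).2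
  have hc0 : ∀ v, c v = 0 → v = 0 := by
    intro v hv
    have h1 : (∑ i, v i • b i : U) = 0 := Subtype.ext hv
    funext i
    exact (Fintype.linearIndependent_iff.mp b.linearIndependent v h1) i
  have hce : ∀ v, c v = ∑ i, v i • (b i : Fin n → L) := by
    intro v
    simp [c]
  have hTb : ∀ j, ∃ r : Fin k → L, T *ᵥ (b j : Fin n → L) = c r := by
    intro j
    refine ⟨fun i => b.repr ⟨_, hTU _ (b j).2⟩ i, ?_⟩
    have h1 := b.sum_repr ⟨T *ᵥ (b j : Fin n → L), hTU _ (b j).2⟩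
    have h2 := congrArg Subtype.val h1
    exact h2.symm
  choose R0 hR0 using hTb
  let R : Matrix (Fin k) (Fin k) L := Matrix.of fun l j => R0 j l
  let G : Matrix (Fin k) (Fin k) L := Matrix.of fun i j =>
    (b i : Fin n → L) ⬝ᵥ (ψ *ᵥ (b j : Fin n → L))
  have hTc : ∀ v, T *ᵥ (c v) = c (R *ᵥ v) := by
    intro v
    have h1 : T *ᵥ (c v) = ∑ j, v j • c (R0 j) := by
      rw [hce, Matrix.mulVec_sum]
      refine Finset.sum_congr rfl fun j _ => ?_
      rw [Matrix.mulVec_smul, hR0]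
    rw [h1]
    simp only [hce]
    simp only [Finset.smul_sum, smul_smul]
    rw [Finset.sum_comm]
    refine Finset.sum_congr rfl fun i _ => ?_
    rw [← Finset.sum_smul]
    congr 1
    rw [Matrix.mulVec, dotProduct]
    refine Finset.sum_congr rfl fun j _ => ?_
    rw [mul_comm]
    rfl
  have hGc : ∀ v w, (c v) ⬝ᵥ (ψ *ᵥ (c w)) = v ⬝ᵥ (G *ᵥ w) := by
    intro v w
    rw [hce, hce, Matrix.mulVec_sum, sum_dotProduct]
    rw [dotProduct]
    refine Finset.sum_congr rfl fun i _ => ?_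
    rw [smul_dotProduct, dotProduct_sum, Matrix.mulVec, dotProduct, smul_eq_mul]
    congr 1
    refine Finset.sum_congr rfl fun j _ => ?_
    rw [Matrix.mulVec_smul, dotProduct_smul, smul_eq_mul, mul_comm]
    rfl
  have h1 : Rᵀ * G + G * R = 0 := by
    ext i j
    have h2 := skew_dot hT (c (Pi.single i 1)) (c (Pi.single j 1))
    rw [hTc, hTc, hGc, hGc] at h2
    have h3 : (R *ᵥ (Pi.single i 1 : Fin k → L)) ⬝ᵥ (G *ᵥ (Pi.single j 1 : Fin k → L)) =
        (Rᵀ * G) i j := by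
      rw [Matrix.mulVec_single_one, Matrix.mulVec_single_one, Matrix.mul_apply']
      rfl
    have h4 : (Pi.single i 1 : Fin k → L) ⬝ᵥ (G *ᵥ (R *ᵥ (Pi.single j 1 : Fin k → L))) =
        (G * R) i j := by
      rw [Matrix.mulVec_mulVec, single_one_dotProduct, Matrix.mulVec_single_one]
      rfl
    rw [h3, h4] at h2
    rw [Matrix.add_apply, h2, Matrix.zero_apply, neg_add_cancel]
  have hR : R.det ≠ 0 := by
    intro h0
    obtain ⟨v, hv, hRv⟩ := Matrix.exists_mulVec_eq_zero_iff.mpr h0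
    have h2 := hTc v
    rw [hRv] at h2
    have h3 : c (0 : Fin k → L) = 0 := by rw [hce]; simp
    rw [h3] at h2
    exact hcon (c v) (hcU v) (fun h => hv (hc0 v h)) h2
  have hG : G.det ≠ 0 := by
    intro h0
    obtain ⟨v, hv, hGv⟩ := Matrix.exists_mulVec_eq_zero_iff.mpr h0
    apply hv
    apply hc0
    apply hnd (c v) (hcU v)
    intro x hx
    obtain ⟨w, rfl⟩ : ∃ w, c w = x := by
      refine ⟨fun i => b.repr ⟨x, hx⟩ i, ?_⟩
      exact congrArg Subtype.val (b.sum_repr ⟨x, hx⟩)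
    rw [hGc, hGv, dotProduct_zero]
  have h2 := congrArg Matrix.det (eq_neg_of_add_eq_zero_left h1)
  rw [Matrix.det_mul, Matrix.det_transpose, Matrix.det_neg, Matrix.det_mul, Fintype.card_fin,
    hodd.neg_one_pow] at h2
  have h3 : (2 : L) * (R.det * G.det) = 0 := by linear_combination h2
  exact (mul_ne_zero two_ne_zero (mul_ne_zero hR hG)) h3

theorem mulVec_pow (T : Matrix (Fin n) (Fin n) L) (k : ℕ) (v : Fin n → L) :
    ((Matrix.toLin' T) ^ k) v = (T ^ k) *ᵥ v := by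
  rw [← Matrix.toLin'_pow, Matrix.toLin'_apply]

theorem skew_pow_dot {ψ T : Matrix (Fin n) (Fin n) L} (hT : Tᵀ * ψ + ψ * T = 0)
    (k : ℕ) (x y : Fin n → L) :
    ((T ^ k) *ᵥ x) ⬝ᵥ (ψ *ᵥ y) = (-1) ^ k * (x ⬝ᵥ (ψ *ᵥ ((T ^ k) *ᵥ y))) := by
  induction k generalizing x y with
  | zero => simp
  | succ k ih =>
    rw [pow_succ', ← Matrix.mulVec_mulVec, skew_dot hT, ih, Matrix.mulVec_mulVec y (T ^ k) T,
      (Commute.self_pow T k).eq.symm]
    ring

theorem sa_pow_dot {ψ Z : Matrix (Fin n) (Fin n) L} (hZ : Zᵀ * ψ = ψ * Z)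
    (k : ℕ) (x y : Fin n → L) :
    ((Z ^ k) *ᵥ x) ⬝ᵥ (ψ *ᵥ y) = x ⬝ᵥ (ψ *ᵥ ((Z ^ k) *ᵥ y)) := by
  induction k generalizing x y with
  | zero => simp
  | succ k ih =>
    rw [pow_succ', ← Matrix.mulVec_mulVec, sa_dot hZ, ih, Matrix.mulVec_mulVec y (Z ^ k) Z,
      (Commute.self_pow Z k).eq.symm]

/-- the generalised eigenspaces of a selfadjoint matrix are non-degenerate -/
theorem par [CharZero L] {ψ T Z : Matrix (Fin n) (Fin n) L} (hψ : ψ.det ≠ 0)
    (hT : Tᵀ * ψ + ψ * T = 0) (hZ : Zᵀ * ψ = ψ * Z) (hc : T * Z = Z * T) (μ : L)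
    (hodd : Odd (Z.charpoly.rootMultiplicity μ)) :
    ∃ v : Fin n → L, v ≠ 0 ∧ T *ᵥ v = 0 ∧ ∃ k : ℕ, ((Z - μ • 1) ^ k) *ᵥ v = 0 := by
  have hmem : ∀ v : Fin n → L, v ∈ Module.End.maxGenEigenspace (Matrix.toLin' Z) μ ↔
      ∃ k : ℕ, ((Z - μ • 1) ^ k) *ᵥ v = 0 := by
    intro v
    rw [Module.End.mem_maxGenEigenspace]
    refine exists_congr fun k => ?_
    have h1 : Matrix.toLin' Z - μ • (1 : Module.End L (Fin n → L)) =
        Matrix.toLin' (Z - μ • (1 : Matrix (Fin n) (Fin n) L)) := by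
      rw [map_sub, map_smul, Matrix.toLin'_one]
      rfl
    rw [h1, mulVec_pow]
  have hZ' : (Z - μ • (1 : Matrix (Fin n) (Fin n) L))ᵀ * ψ =
      ψ * (Z - μ • (1 : Matrix (Fin n) (Fin n) L)) := by
    rw [Matrix.transpose_sub, Matrix.transpose_smul, Matrix.transpose_one, Matrix.sub_mul,
      Matrix.mul_sub, hZ, Matrix.smul_mul, Matrix.mul_smul, Matrix.one_mul, Matrix.mul_one]
  have hcom : Commute T (Z - μ • (1 : Matrix (Fin n) (Fin n) L)) := by
    refine Commute.sub_right hc ?_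
    exact (Commute.one_right T).smul_right μ
  obtain ⟨v, hv, hv0, hTv⟩ := odd_kernel hT (Module.End.maxGenEigenspace (Matrix.toLin' Z) μ)
    (by
      intro u hu
      obtain ⟨k, hk⟩ := (hmem u).mp hu
      refine (hmem _).mpr ⟨k, ?_⟩
      rw [Matrix.mulVec_mulVec, ← (hcom.pow_right k).eq, ← Matrix.mulVec_mulVec, hk,
        Matrix.mulVec_zero])
    (by
      intro u hu h
      obtain ⟨k, hk⟩ := (hmem u).mp hu
      apply zero_of_dot hψ
      intro x
      have hcompl := LinearMap.isCompl_iSup_ker_pow_iInf_range_pow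
        (Matrix.toLin' (Z - μ • (1 : Matrix (Fin n) (Fin n) L)))
      have hx : x ∈ (⊤ : Submodule L (Fin n → L)) := trivial
      rw [← hcompl.sup_eq_top, Submodule.mem_sup] at hx
      obtain ⟨y, hy, z, hz, rfl⟩ := hx
      rw [add_dotProduct]
      have h1 : y ⬝ᵥ (ψ *ᵥ u) = 0 := by
        apply h
        rw [hmem]
        have hdir : Monotone fun m : ℕ => LinearMap.ker
            ((Matrix.toLin' (Z - μ • (1 : Matrix (Fin n) (Fin n) L))) ^ m) := by
          intro a b hab w hw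
          rw [LinearMap.mem_ker] at hw ⊢
          obtain ⟨c, rfl⟩ := Nat.exists_eq_add_of_le' hab
          rw [pow_add, Module.End.mul_apply, hw, map_zero]
        rw [Submodule.mem_iSup_of_directed _ hdir.directed_le] at hy
        obtain ⟨m, hm⟩ := hy
        refine ⟨m, ?_⟩
        rw [LinearMap.mem_ker, mulVec_pow] at hm
        exact hm
      have h2 : z ⬝ᵥ (ψ *ᵥ u) = 0 := by
        rw [Submodule.mem_iInf] at hz
        obtain ⟨w, hw⟩ := hz k
        rw [mulVec_pow] at hw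
        rw [← hw, sa_pow_dot hZ', hk, Matrix.mulVec_zero, dotProduct_zero]
      rw [h1, h2, add_zero])
    (by
      rw [LinearMap.finrank_maxGenEigenspace_eq, Matrix.charpoly_toLin']
      exact hodd)
  exact ⟨v, hv0, hTv, (hmem v).mp hv⟩

/-- facts on a skew matrix whose generalised kernel is a line -/
theorem line_facts [CharZero L] {ψ T : Matrix (Fin n) (Fin n) L} (hψ : ψ.det ≠ 0)
    (hT : Tᵀ * ψ + ψ * T = 0) (e : Fin n → L) (he : e ≠ 0) (hTe : T *ᵥ e = 0)
    (h1 : ∀ v, T *ᵥ v = 0 → ∃ c : L, v = c • e) (h2 : ∀ v, T *ᵥ (T *ᵥ v) = 0 → T *ᵥ v = 0) :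
    e ⬝ᵥ (ψ *ᵥ e) ≠ 0 ∧ Odd n := by
  set f := Matrix.toLin' T with hf
  set W : Submodule L (Fin n → L) := ⨅ m : ℕ, LinearMap.range (f ^ m) with hW
  have hcompl := LinearMap.isCompl_iSup_ker_pow_iInf_range_pow f
  have hker : ∀ (m : ℕ) (v : Fin n → L), (T ^ m) *ᵥ v = 0 → m ≠ 0 → T *ᵥ v = 0 := by
    intro m
    induction m with
    | zero => intro v _ h; exact absurd rfl h
    | succ m ih =>
      intro v hv _
      rcases Nat.eq_zero_or_pos m with h0 | h0
      · subst h0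
        simpa using hv
      · rw [pow_succ, ← Matrix.mulVec_mulVec] at hv
        exact h2 v (ih (T *ᵥ v) hv (by omega))
  have hV : (⨆ m : ℕ, LinearMap.ker (f ^ m)) = Submodule.span L {e} := by
    apply le_antisymm
    · apply iSup_le
      intro m v hv
      rw [LinearMap.mem_ker, hf, mulVec_pow] at hv
      rcases Nat.eq_zero_or_pos m with h0 | h0
      · subst h0
        rw [pow_zero, Matrix.one_mulVec] at hv
        rw [hv]
        exact Submodule.zero_mem _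
      · obtain ⟨c, hc⟩ := h1 v (hker m v hv (by omega))
        rw [hc]
        exact Submodule.smul_mem _ _ (Submodule.mem_span_singleton_self e)
    · rw [Submodule.span_singleton_le_iff_mem]
      refine Submodule.mem_iSup_of_mem 1 ?_
      rw [LinearMap.mem_ker, pow_one, hf, Matrix.toLin'_apply]
      exact hTe
  rw [hV, ← hW] at hcompl
  have heW : ∀ w ∈ W, e ⬝ᵥ (ψ *ᵥ w) = 0 := by
    intro w hw
    rw [hW, Submodule.mem_iInf] at hw
    obtain ⟨y, hy⟩ := hw 1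
    rw [pow_one, hf, Matrix.toLin'_apply] at hy
    have h3 := skew_dot hT e y
    rw [hTe, zero_dotProduct, hy] at h3
    exact neg_eq_zero.mp h3.symm
  have hWe : ∀ w ∈ W, w ⬝ᵥ (ψ *ᵥ e) = 0 := by
    intro w hw
    rw [hW, Submodule.mem_iInf] at hw
    obtain ⟨y, hy⟩ := hw 1
    rw [pow_one, hf, Matrix.toLin'_apply] at hy
    rw [← hy, skew_dot hT, hTe, Matrix.mulVec_zero, dotProduct_zero, neg_zero]
  have hdec : ∀ x : Fin n → L, ∃ c : L, ∃ w ∈ W, x = c • e + w := by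
    intro x
    have hx : x ∈ (⊤ : Submodule L (Fin n → L)) := trivial
    rw [← hcompl.sup_eq_top, Submodule.mem_sup] at hx
    obtain ⟨y, hy, z, hz, rfl⟩ := hx
    obtain ⟨c, rfl⟩ := Submodule.mem_span_singleton.mp hy
    exact ⟨c, z, hz, rfl⟩
  refine ⟨?_, ?_⟩
  · intro h0
    apply he
    apply zero_of_dot hψ
    intro x
    obtain ⟨c, w, hw, rfl⟩ := hdec x
    rw [add_dotProduct, smul_dotProduct, h0, hWe w hw, smul_zero, add_zero]
  · by_contra hn
    have hfr : Module.finrank L W + 1 = n := by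
      have h3 := Submodule.finrank_add_eq_of_isCompl hcompl
      rw [finrank_span_singleton he, Module.finrank_fin_fun] at h3
      omega
    have hodd : Odd (Module.finrank L W) := by
      rw [Nat.not_odd_iff_even] at hn
      rw [← hfr] at hn
      exact (Nat.even_add_one.mp hn) |> Nat.not_even_iff_odd.mp
    obtain ⟨v, hv, hv0, hTv⟩ := odd_kernel hT W
      (by
        intro u hu
        rw [hW, Submodule.mem_iInf] at hu ⊢
        intro m
        obtain ⟨y, hy⟩ := hu m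
        refine ⟨T *ᵥ y, ?_⟩
        rw [hf, mulVec_pow] at hy ⊢
        rw [Matrix.mulVec_mulVec, ← hy, Matrix.mulVec_mulVec, (Commute.self_pow T m).eq])
      (by
        intro u hu h
        apply zero_of_dot hψ
        intro x
        obtain ⟨c, w, hw, rfl⟩ := hdec x
        rw [add_dotProduct, smul_dotProduct, heW u hu, h w hw, smul_zero, add_zero])
      hodd
    obtain ⟨c, hc⟩ := h1 v hTv
    have h4 : v ∈ Submodule.span L {e} := by
      rw [hc]
      exact Submodule.smul_mem _ _ (Submodule.mem_span_singleton_self e)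
    exact hv0 ((Submodule.disjoint_def.mp hcompl.disjoint) v h4 hv)

end OI
end MT
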