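import Pool.Agent.Helper21.MT9.Stmts
import Pool.Agent.Helper84.MT9.OI2a

/-!
# T9, module OI2: irreducible Lie algebras with middle Hodge number one are absolutely irreducible
-/

set_option autoImplicit false

open Matrix Polynomial

namespace MT
namespace OI

section base

variable {K L : Type} [Field K] [Field L] [Algebra K L] {n : ℕ}

theorem base_mul (T : Matrix (Fin n) (Fin n) K) (v : Fin n → L)
    (hv : (T.map (algebraMap K L)) *ᵥ v = 0) (f : L →ₗ[K] K) :
    T *ᵥ (fun j => f (v j)) = 0 := by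
  funext i
  have h1 := congrArg f (congrFun hv i)
  rw [Pi.zero_apply, map_zero] at h1
  rw [Pi.zero_apply, ← h1]
  simp only [Matrix.mulVec, dotProduct, Matrix.map_apply, map_sum]
  refine Finset.sum_congr rfl fun j _ => ?_
  rw [← Algebra.smul_def, map_smul, smul_eq_mul]

theorem base_line (T : Matrix (Fin n) (Fin n) K) (e : Fin n → K) (he : e ≠ 0)
    (h1 : ∀ v : Fin n → K, T *ᵥ v = 0 → ∃ c : K, v = c • e) (v : Fin n → L)
    (hv : (T.map (algebraMap K L)) *ᵥ v = 0) :
    ∃ c : L, v = c • (fun j => algebraMap K L (e j)) := by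
  obtain ⟨j0, hj0⟩ := Function.ne_iff.mp he
  rw [Pi.zero_apply] at hj0
  have hj0' : algebraMap K L (e j0) ≠ 0 := fun h => hj0 ((map_eq_zero _).mp h)
  refine ⟨v j0 / algebraMap K L (e j0), ?_⟩
  funext j
  have key : e j0 • v j = e j • v j0 := by
    let b := Module.Basis.ofVectorSpace K L
    apply b.repr.injective
    ext i
    obtain ⟨c, hc⟩ := h1 _ (base_mul T v hv (b.coord i))
    have h2 := congrFun hc j
    have h3 := congrFun hc j0
    simp only [Module.Basis.coord_apply, Pi.smul_apply, smul_eq_mul] at h2 h3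
    simp only [map_smul, Finsupp.smul_apply, smul_eq_mul]
    rw [h2, h3]
    ring
  rw [Algebra.smul_def, Algebra.smul_def] at key
  rw [Pi.smul_apply, smul_eq_mul]
  field_simp
  linear_combination key

end base

theorem aeval_mulVec {K₀ L : Type} [Field K₀] [Field L] [Algebra K₀ L] {n : ℕ}
    (Z : Matrix (Fin n) (Fin n) L) (v : Fin n → L) (μ : L) (h : Z *ᵥ v = μ • v)
    (p : K₀[X]) : (aeval Z p) *ᵥ v = (aeval μ p) • v := by
  induction p using Polynomial.induction_on' with
  | add p q hp hq => rw [map_add, map_add, Matrix.add_mulVec, hp, hq, add_smul]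
  | monomial k a =>
    have h1 : ∀ k : ℕ, (Z ^ k) *ᵥ v = (μ ^ k) • v := by
      intro k
      induction k with
      | zero => rw [pow_zero, pow_zero, Matrix.one_mulVec, one_smul]
      | succ k ih =>
        rw [pow_succ, ← Matrix.mulVec_mulVec, h, Matrix.mulVec_smul, ih, smul_smul, pow_succ']
    rw [aeval_monomial, aeval_monomial, ← Matrix.mulVec_mulVec, h1, Matrix.mulVec_smul]
    have h2 : (algebraMap K₀ (Matrix (Fin n) (Fin n) L) a) *ᵥ v = (algebraMap K₀ L a) • v := by
      rw [Algebra.algebraMap_eq_smul_one, Matrix.smul_mulVec, Matrix.one_mulVec,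
        algebraMap_smul]
    rw [h2, smul_smul, mul_comm]

theorem aeval_map_mat {K₀ L : Type} [Field K₀] [Field L] [Algebra K₀ L] {n : ℕ}
    (Y : Matrix (Fin n) (Fin n) K₀) (p : K₀[X]) :
    (aeval Y p).map (algebraMap K₀ L) = aeval (Y.map (algebraMap K₀ L)) p := by
  have h1 := Polynomial.aeval_algHom_apply ((Algebra.ofId K₀ L).mapMatrix (m := Fin n)) Y p
  exact h1.symm

/-- the multiplicities of the roots of the characteristic polynomial -/
theorem charpoly_facts {K₀ L : Type} [Field K₀] [CharZero K₀] [Field L] [IsAlgClosed L]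
    [Algebra K₀ L] {n : ℕ} (Y : Matrix (Fin n) (Fin n) K₀) (p : K₀[X]) (hp : Irreducible p)
    (hY : aeval Y p = 0) (hn : Odd n) (μ : L) (hμ : aeval μ p = 0) :
    Odd ((Y.map (algebraMap K₀ L)).charpoly.rootMultiplicity μ) := by
  classical
  set q := Y.charpoly with hq
  have hq0 : q ≠ 0 := (Matrix.charpoly_monic Y).ne_zero
  obtain ⟨m, s, hs, hqs⟩ : ∃ m : ℕ, ∃ s : K₀[X], ¬ p ∣ s ∧ q = p ^ m * s := by
    obtain ⟨s, h1, h2⟩ := (FiniteMultiplicity.of_not_isUnit hp.not_isUnit hq0
      ).exists_eq_pow_mul_and_not_dvd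
    exact ⟨_, s, h2, h1⟩
  have hcop : IsCoprime p s := (Irreducible.coprime_iff_not_dvd hp).mpr hs
  have hroot : ∀ x : L, aeval x q = 0 → aeval x p = 0 := by
    intro x hx
    have h1 : (Y.map (algebraMap K₀ L)).charpoly.IsRoot x := by
      rw [Polynomial.IsRoot.def, Matrix.charpoly_map, Polynomial.eval_map_algebraMap]
      exact hx
    rw [Polynomial.IsRoot.def, Matrix.eval_charpoly] at h1
    obtain ⟨v, hv, hv2⟩ := Matrix.exists_mulVec_eq_zero_iff.mpr h1
    have h2 : (Y.map (algebraMap K₀ L)) *ᵥ v = x • v := by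
      rw [Matrix.sub_mulVec, sub_eq_zero] at hv2
      rw [← hv2]
      ext i
      simp [Matrix.mulVec, dotProduct, Matrix.scalar_apply, Matrix.diagonal_apply]
    have h3 := aeval_mulVec (K₀ := K₀) (Y.map (algebraMap K₀ L)) v x h2 p
    rw [← aeval_map_mat, hY] at h3
    have h4 : (0 : Matrix (Fin n) (Fin n) K₀).map (algebraMap K₀ L) = 0 := by
      ext i j
      simp
    rw [h4, Matrix.zero_mulVec] at h3
    exact (smul_eq_zero.mp h3.symm).resolve_right hv
  have hs0 : s ≠ 0 := by
    rintro rfl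
    rw [mul_zero] at hqs
    exact hq0 hqs
  have hsdeg : s.natDegree = 0 := by
    by_contra hd
    have hd' : (s.map (algebraMap K₀ L)).degree ≠ 0 := by
      rw [Polynomial.degree_map]
      intro h
      exact hd (Polynomial.natDegree_eq_of_degree_eq_some h)
    obtain ⟨x, hx⟩ := IsAlgClosed.exists_root _ hd'
    have hx' : aeval x s = 0 := by
      rw [Polynomial.IsRoot.def, Polynomial.eval_map_algebraMap] at hx
      exact hx
    have hxp : aeval x p = 0 := hroot x (by rw [hqs, map_mul, hx', mul_zero])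
    obtain ⟨a, b, hab⟩ := hcop
    have h5 := congrArg (aeval x) hab
    rw [map_add, map_mul, map_mul, hx', hxp, mul_zero, mul_zero, add_zero, map_one] at h5
    exact zero_ne_one h5
  have hdeg : n = m * p.natDegree := by
    have h1 : q.natDegree = n := by
      rw [hq, Matrix.charpoly_natDegree_eq_dim, Fintype.card_fin]
    rw [← h1, hqs, Polynomial.natDegree_mul (pow_ne_zero _ hp.ne_zero) hs0, hsdeg, add_zero,
      Polynomial.natDegree_pow]
  have hm : Odd m := by
    rw [hdeg] at hn
    exact (Nat.odd_mul.mp hn).1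
  have hsep : (p.map (algebraMap K₀ L)).Separable := hp.separable.map
  have hpL0 : p.map (algebraMap K₀ L) ≠ 0 := hsep.ne_zero
  obtain ⟨c, hc⟩ : ∃ c : K₀, s = C c := ⟨s.coeff 0, Polynomial.eq_C_of_natDegree_eq_zero hsdeg⟩
  have hc0 : c ≠ 0 := by
    rintro rfl
    rw [map_zero] at hc
    exact hs0 hc
  have hcL : algebraMap K₀ L c ≠ 0 := fun h => hc0 ((map_eq_zero _).mp h)
  rw [Matrix.charpoly_map, ← Polynomial.count_roots, ← hq, hqs, hc, Polynomial.map_mul,
    Polynomial.map_pow, Polynomial.map_C, mul_comm, Polynomial.roots_C_mul _ hcL,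
    Polynomial.roots_pow, Multiset.count_nsmul]
  have h6 : Multiset.count μ (p.map (algebraMap K₀ L)).roots = 1 := by
    apply Multiset.count_eq_one_of_mem (Polynomial.nodup_roots hsep)
    rw [Polynomial.mem_roots hpL0, Polynomial.IsRoot.def, Polynomial.eval_map_algebraMap]
    exact hμ
  rw [h6, mul_one]
  exact hm

end OI

open OI in
theorem st_OI2 : ST_OI2 := by
  classical
  intro K₀ K _ _ _ _ n ψ a Θ r e hψ hsym hsim hirr hΘ hΘψ he hΘe hline hgen Y hY
  have hK : CharZero K := charZero_of_injective_algebraMap (algebraMap K₀ K).injective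
  set φ := algebraMap K₀ K with hφ
  set ψK := ψ.map φ with hψK
  have hψKdet : ψK.det ≠ 0 := by
    have h1 : ψK.det = φ ψ.det := (RingHom.map_det φ ψ).symm
    rw [h1]
    exact fun h => hψ ((map_eq_zero φ).mp h)
  -- Schur's lemma
  have schur : ∀ X : Matrix (Fin n) (Fin n) K₀, (∀ A ∈ a, A * X = X * A) → X.det = 0 →
      X = 0 := by
    intro X hX h0
    let U : Submodule K₀ (Fin n → K₀) := LinearMap.ker (Matrix.toLin' X)
    have hU : ∀ v, v ∈ U ↔ X *ᵥ v = 0 := by
      intro v
      rw [LinearMap.mem_ker, Matrix.toLin'_apply]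
    rcases hirr U (by
      intro A hA v hv
      rw [hU] at hv ⊢
      rw [Matrix.mulVec_mulVec, ← hX A hA, ← Matrix.mulVec_mulVec, hv, Matrix.mulVec_zero])
      with h | h
    · exfalso
      obtain ⟨v, hv, hv2⟩ := Matrix.exists_mulVec_eq_zero_iff.mpr h0
      have h1 : v ∈ U := (hU v).mpr hv2
      rw [h, Submodule.mem_bot] at h1
      exact hv h1
    · ext i j
      have h1 : (Pi.single j 1 : Fin n → K₀) ∈ U := by rw [h]; trivial
      rw [hU, Matrix.mulVec_single_one] at h1
      exact congrFun h1 i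
  -- commutation with `Θ`
  have comm : ∀ X : Matrix (Fin n) (Fin n) K₀, (∀ A ∈ a, A * X = X * A) →
      Θ * X.map φ = X.map φ * Θ := by
    intro X hX
    have h1 : ∀ B ∈ Submodule.span K {B | ∃ A ∈ a, B = A.map φ},
        B * X.map φ = X.map φ * B := by
      intro B hB
      induction hB using Submodule.span_induction with
      | mem B hB =>
        obtain ⟨A, hA, rfl⟩ := hB
        rw [← Matrix.map_mul, ← Matrix.map_mul, hX A hA]
      | zero => rw [Matrix.zero_mul, Matrix.mul_zero]
      | add B C _ _ hB hC => rw [Matrix.add_mul, Matrix.mul_add, hB, hC]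
      | smul c B _ hB => rw [Matrix.smul_mul, Matrix.mul_smul, hB]
    exact h1 Θ hΘ
  set T := Θ - r • (1 : Matrix (Fin n) (Fin n) K) with hTdef
  have hTv : ∀ v, T *ᵥ v = Θ *ᵥ v - r • v := by
    intro v
    rw [hTdef, Matrix.sub_mulVec, Matrix.smul_mulVec, Matrix.one_mulVec]
  have hT : Tᵀ * ψK + ψK * T = 0 := by
    rw [hTdef, Matrix.transpose_sub, Matrix.transpose_smul, Matrix.transpose_one, Matrix.sub_mul,
      Matrix.mul_sub, Matrix.smul_mul, Matrix.mul_smul, Matrix.one_mul, Matrix.mul_one]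
    have h1 : Θᵀ * ψK - r • ψK + (ψK * Θ - r • ψK) = (Θᵀ * ψK + ψK * Θ) - (2 * r) • ψK := by
      rw [two_mul, add_smul]
      abel
    rw [h1, hΘψ, sub_self]
  have hTe : T *ᵥ e = 0 := by rw [hTv, hΘe, sub_self]
  have h1 : ∀ v, T *ᵥ v = 0 → ∃ c : K, v = c • e := by
    intro v hv
    rw [hTv, sub_eq_zero] at hv
    exact hline v hv
  have h2 : ∀ v, T *ᵥ (T *ᵥ v) = 0 → T *ᵥ v = 0 := by
    intro v hv
    have := hgen v hv
    rw [hTv, this, sub_self]
  obtain ⟨hee, hodd⟩ := line_facts hψKdet hT e he hTe h1 h2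
  -- eigenvalues at `e`
  have eig : ∀ X : Matrix (Fin n) (Fin n) K₀, (∀ A ∈ a, A * X = X * A) →
      ∃ c : K, X.map φ *ᵥ e = c • e := by
    intro X hX
    apply hline
    rw [Matrix.mulVec_mulVec, comm X hX, ← Matrix.mulVec_mulVec, hΘe, Matrix.mulVec_smul]
  -- selfadjointness
  have hu : IsUnit ψ.det := isUnit_iff_ne_zero.mpr hψ
  have sa : Yᵀ * ψ = ψ * Y := by
    set Ys := ψ⁻¹ * Yᵀ * ψ with hYs
    have hψYs : ψ * Ys = Yᵀ * ψ := by
      rw [hYs, Matrix.mul_assoc, ← Matrix.mul_assoc, Matrix.mul_nonsing_inv ψ hu, Matrix.one_mul]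
    have hYsc : ∀ A ∈ a, A * Ys = Ys * A := by
      intro A hA
      obtain ⟨c, hc⟩ := hsim A hA
      have h3 : ψ * A = c • ψ - Aᵀ * ψ := by rw [← hc]; abel
      have h4 : ψ * (A * Ys) = ψ * (Ys * A) := by
        calc ψ * (A * Ys) = (ψ * A) * Ys := by rw [Matrix.mul_assoc]
          _ = (c • ψ - Aᵀ * ψ) * Ys := by rw [h3]
          _ = c • (ψ * Ys) - Aᵀ * (ψ * Ys) := by
            rw [Matrix.sub_mul, Matrix.smul_mul, Matrix.mul_assoc]
          _ = c • (Yᵀ * ψ) - Aᵀ * (Yᵀ * ψ) := by rw [hψYs]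
          _ = c • (Yᵀ * ψ) - (Y * A)ᵀ * ψ := by rw [Matrix.transpose_mul, Matrix.mul_assoc]
          _ = c • (Yᵀ * ψ) - (A * Y)ᵀ * ψ := by rw [hY A hA]
          _ = c • (Yᵀ * ψ) - Yᵀ * (Aᵀ * ψ) := by rw [Matrix.transpose_mul, Matrix.mul_assoc]
          _ = Yᵀ * (c • ψ - Aᵀ * ψ) := by rw [Matrix.mul_sub, Matrix.mul_smul]
          _ = Yᵀ * (ψ * A) := by rw [h3]
          _ = (ψ * Ys) * A := by rw [hψYs, Matrix.mul_assoc]
          _ = ψ * (Ys * A) := by rw [Matrix.mul_assoc]
      have h5 := congrArg (fun X => ψ⁻¹ * X) h4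
      simp only [← Matrix.mul_assoc, Matrix.nonsing_inv_mul ψ hu, Matrix.one_mul] at h5
      exact h5
    obtain ⟨c1, hc1⟩ := eig Y hY
    obtain ⟨c2, hc2⟩ := eig Ys hYsc
    have h6 : ψK * Ys.map φ = (Y.map φ)ᵀ * ψK := by
      have := congrArg (fun X => X.map φ) hψYs
      simp only [Matrix.map_mul] at this
      rw [Matrix.transpose_map] at this
      exact this
    have h7 : c2 * (e ⬝ᵥ (ψK *ᵥ e)) = c1 * (e ⬝ᵥ (ψK *ᵥ e)) := by
      have e1 : e ⬝ᵥ (ψK *ᵥ (Ys.map φ *ᵥ e)) = c2 * (e ⬝ᵥ (ψK *ᵥ e)) := by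
        rw [hc2, Matrix.mulVec_smul, dotProduct_smul, smul_eq_mul]
      have e2 : e ⬝ᵥ (ψK *ᵥ (Ys.map φ *ᵥ e)) = c1 * (e ⬝ᵥ (ψK *ᵥ e)) := by
        rw [Matrix.mulVec_mulVec, h6, ← Matrix.mulVec_mulVec,
          Matrix.dotProduct_mulVec e (Y.map φ)ᵀ, Matrix.vecMul_transpose, hc1, smul_dotProduct,
          smul_eq_mul]
      rw [← e1, e2]
    have h8 : c2 = c1 := mul_right_cancel₀ hee h7
    have h9 : Y - Ys = 0 := by
      apply schur
      · intro A hA
        rw [Matrix.mul_sub, Matrix.sub_mul, hY A hA, hYsc A hA]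
      · have h10 : ((Y - Ys).map φ).det = 0 := by
          apply Matrix.exists_mulVec_eq_zero_iff.mp
          refine ⟨e, he, ?_⟩
          rw [Matrix.map_sub φ (fun x y => map_sub φ x y), Matrix.sub_mulVec, hc1, hc2, h8,
            sub_self]
        have h11 : ((Y - Ys).map φ).det = φ (Y - Ys).det := (RingHom.map_det φ (Y - Ys)).symm
        rw [h11] at h10
        exact (map_eq_zero φ).mp h10
    rw [sub_eq_zero] at h9
    rw [← hψYs, ← h9]
  obtain ⟨lam, hlam⟩ := eig Y hY
  have hroot : aeval lam Y.charpoly = 0 := by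
    have h3 : (Y.map φ).charpoly.eval lam = 0 := by
      rw [Matrix.eval_charpoly]
      apply Matrix.exists_mulVec_eq_zero_iff.mp
      refine ⟨e, he, ?_⟩
      rw [Matrix.sub_mulVec, hlam, sub_eq_zero]
      ext i
      simp [Matrix.mulVec, dotProduct, Matrix.scalar_apply, Matrix.diagonal_apply]
    rw [Matrix.charpoly_map, Polynomial.eval_map_algebraMap] at h3
    exact h3
  have hint : IsIntegral K₀ lam := ⟨Y.charpoly, Matrix.charpoly_monic Y, hroot⟩
  set p := minpoly K₀ lam with hp
  have hpirr : Irreducible p := minpoly.irreducible hint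
  have hpY : aeval Y p = 0 := by
    apply schur
    · intro A hA
      have h3 : Commute A Y := hY A hA
      have h4 : ∀ f : K₀[X], Commute A (aeval Y f) := by
        intro f
        induction f using Polynomial.induction_on' with
        | add f g hf hg => rw [map_add]; exact hf.add_right hg
        | monomial k c =>
          rw [aeval_monomial]
          exact (Algebra.commute_algebraMap_right c A).mul_right (h3.pow_right k)
      exact h4 p
    · have h10 : ((aeval Y p).map φ).det = 0 := by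
        apply Matrix.exists_mulVec_eq_zero_iff.mp
        refine ⟨e, he, ?_⟩
        rw [hφ, aeval_map_mat, aeval_mulVec (K₀ := K₀) (Y.map (algebraMap K₀ K)) e lam hlam p,
          hp, minpoly.aeval, zero_smul]
      have h11 : ((aeval Y p).map φ).det = φ (aeval Y p).det := (RingHom.map_det φ _).symm
      rw [h11] at h10
      exact (map_eq_zero φ).mp h10
  -- over an algebraic closure
  let L := AlgebraicClosure K
  have hL : CharZero L := charZero_of_injective_algebraMap (algebraMap K L).injective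
  set φL := algebraMap K L with hφL
  have hmm : ∀ M : Matrix (Fin n) (Fin n) K₀, (M.map φ).map φL = M.map (algebraMap K₀ L) := by
    intro M
    ext i j
    simp only [Matrix.map_apply, hφ, hφL]
    exact (IsScalarTower.algebraMap_apply K₀ K L (M i j)).symm
  have hψLdet : (ψK.map φL).det ≠ 0 := by
    have h3 : (ψK.map φL).det = φL ψK.det := (RingHom.map_det φL ψK).symm
    rw [h3]
    exact fun h => hψKdet ((map_eq_zero φL).mp h)
  have hTL : (T.map φL)ᵀ * ψK.map φL + ψK.map φL * T.map φL = 0 := by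
    have h3 := congrArg (fun X => X.map φL) hT
    simp only [Matrix.map_add φL (fun x y => map_add φL x y), Matrix.map_mul] at h3
    rw [Matrix.transpose_map] at h3
    rw [h3]
    ext i j
    simp
  have hZL : ((Y.map φ).map φL)ᵀ * ψK.map φL = ψK.map φL * (Y.map φ).map φL := by
    have h3 := congrArg (fun X => (X.map φ).map φL) sa
    simp only [Matrix.map_mul] at h3
    rw [Matrix.transpose_map, Matrix.transpose_map] at h3
    exact h3
  have hcL : T.map φL * (Y.map φ).map φL = (Y.map φ).map φL * T.map φL := by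
    rw [← Matrix.map_mul, ← Matrix.map_mul, hTdef, Matrix.sub_mul, Matrix.mul_sub, comm Y hY,
      Matrix.smul_mul, Matrix.mul_smul, Matrix.one_mul, Matrix.mul_one]
  have hlamL : ((Y.map φ).map φL) *ᵥ (fun j => φL (e j)) = (φL lam) • (fun j => φL (e j)) := by
    funext i
    have h3 := congrArg φL (congrFun hlam i)
    rw [Pi.smul_apply, smul_eq_mul, map_mul] at h3
    rw [Pi.smul_apply, smul_eq_mul, ← h3]
    simp only [Matrix.mulVec, dotProduct, Matrix.map_apply, map_sum, map_mul]
  have hone : ∀ μ : L, aeval μ p = 0 → μ = φL lam := by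
    intro μ hμ
    have h3 := charpoly_facts Y p hpirr hpY hodd μ hμ
    rw [← hmm] at h3
    obtain ⟨v, hv, hTv0, k, hk⟩ := par hψLdet hTL hZL hcL μ h3
    obtain ⟨c, hc⟩ := base_line T e he h1 v hTv0
    have hc0 : c ≠ 0 := by
      rintro rfl
      rw [zero_smul] at hc
      exact hv hc
    have h4 : ∀ k : ℕ, ((((Y.map φ).map φL) - μ • (1 : Matrix (Fin n) (Fin n) L)) ^ k) *ᵥ
        (fun j => φL (e j)) = ((φL lam - μ) ^ k) • (fun j => φL (e j)) := by
      intro k
      induction k with
      | zero => rw [pow_zero, pow_zero, Matrix.one_mulVec, one_smul]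
      | succ k ih =>
        rw [pow_succ, ← Matrix.mulVec_mulVec, Matrix.sub_mulVec, hlamL, Matrix.smul_mulVec,
          Matrix.one_mulVec, ← sub_smul, Matrix.mulVec_smul, ih, smul_smul, pow_succ']
    rw [hc, Matrix.mulVec_smul, ← hφL, h4, smul_smul] at hk
    have h5 : (fun j => φL (e j)) ≠ 0 := by
      intro h
      apply he
      funext j
      exact (map_eq_zero φL).mp (congrFun h j)
    have h6 := (smul_eq_zero.mp hk).resolve_right h5
    have h7 : (φL lam - μ) ^ k = 0 := (mul_eq_zero.mp h6).resolve_left hc0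
    have h8 : φL lam - μ = 0 := by
      rcases Nat.eq_zero_or_pos k with h0 | h0
      · subst h0
        rw [pow_zero] at h7
        exact absurd h7 one_ne_zero
      · exact (pow_eq_zero_iff (by omega)).mp h7
    exact (sub_eq_zero.mp h8).symm
  -- `p` has degree one
  have hsep : (p.map (algebraMap K₀ L)).Separable := hpirr.separable.map
  have hdeg : p.natDegree = 1 := by
    have h3 : (p.map (algebraMap K₀ L)).roots.card = p.natDegree := by
      rw [IsAlgClosed.card_roots_eq_natDegree, Polynomial.natDegree_map]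
    have h4 : (p.map (algebraMap K₀ L)).roots.card ≤ 1 := by
      have h5 : (p.map (algebraMap K₀ L)).roots ≤ {φL lam} := by
        rw [Multiset.le_iff_subset (Polynomial.nodup_roots hsep)]
        intro x hx
        rw [Polynomial.mem_roots hsep.ne_zero, Polynomial.IsRoot.def,
          Polynomial.eval_map_algebraMap] at hx
        rw [Multiset.mem_singleton]
        exact hone x hx
      have h6 := Multiset.card_le_card h5
      rwa [Multiset.card_singleton] at h6
    have h7 : 0 < p.natDegree := hpirr.natDegree_pos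
    omega
  have hmon : p.Monic := minpoly.monic hint
  have h3 := hmon.eq_X_add_C hdeg
  rw [h3, map_add, aeval_X, aeval_C] at hpY
  refine ⟨-(p.coeff 0), ?_⟩
  rw [eq_neg_of_add_eq_zero_left hpY, Algebra.algebraMap_eq_smul_one, neg_smul]

end MT
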